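import Pool.Agent.H11.EL.Targets

/-!
# MP_0b603e_al: module CW (commutator width of finite soluble groups)
-/

set_option autoImplicit false

open scoped commutatorElement

namespace Pool.Agent.H11.EL

private theorem cw_comap_closure {G : Type} [Group G] (M : Subgroup G) [M.Normal]
    (n : ℕ) (a b : ℕ → G)
    (h : Subgroup.closure (ent n (fun i => QuotientGroup.mk' M (a i))
      (fun i => QuotientGroup.mk' M (b i))) = ⊤) :
    Subgroup.closure (ent n a b ∪ M) = ⊤ := by
  have h1 : (Subgroup.closure (ent n a b ∪ M)).map (QuotientGroup.mk' M) = ⊤ := by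
    rw [eq_top_iff, ← h, ← ent_map, ← MonoidHom.map_closure]
    exact Subgroup.map_mono (Subgroup.closure_mono Set.subset_union_left)
  have h2 : M ≤ Subgroup.closure (ent n a b ∪ M) := fun z hz => Subgroup.subset_closure (Or.inr hz)
  have h3 := congrArg (Subgroup.comap (QuotientGroup.mk' M)) h1
  rw [Subgroup.comap_map_eq, QuotientGroup.ker_mk', sup_eq_left.2 h2, Subgroup.comap_top] at h3
  exact h3

theorem pf_cw : T_ST → T_NB → T_GS → T_CW := by
  intro hST hNB hGS d
  suffices H : ∀ N : ℕ, ∀ (G : Type) [Group G] [Finite G], Nat.card G = N → Group.IsSolvable G →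
      ∀ s : Fin d → G, Subgroup.closure (Set.range s) = ⊤ → ∀ g ∈ commutator G,
        ∃ a b : ℕ → G, cp (d + 2) a b = g ∧ Subgroup.closure (ent (d + 2) a b) = ⊤ by
    intro G _ _ hG s hs g hg
    exact H _ G rfl hG s hs g hg
  intro N
  induction N using Nat.strong_induction_on with
  | _ N ih =>
    intro G _ _ hN hG s hs g hg
    by_cases hnil : Group.IsNilpotent G
    · have hcl : Subgroup.closure {g | ∃ i < d, g = sq d 1 s i} = ⊤ := by
        rw [eq_top_iff, ← hs]
        apply Subgroup.closure_mono
        rintro _ ⟨j, rfl⟩
        exact ⟨j, j.2, (sq_lt _ _ j.2).symm⟩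
      obtain ⟨x, hx⟩ := hNB G hnil d (sq d 1 s) hcl g hg
      refine ⟨sq d 1 s, fun i => if i < d then x i else 1, ?_, ?_⟩
      · rw [cp_succ, cp_succ, ← hx]
        simp only [lt_irrefl, if_false, commutatorElement_one_right, mul_one,
          show ¬ (d + 1 < d) by omega]
        apply cp_congr
        · intro i _; rfl
        · intro i hi; rw [if_pos hi]
      · rw [eq_top_iff, ← hcl]
        apply Subgroup.closure_mono
        rintro _ ⟨i, hi, rfl⟩
        exact mem_ent_left (by omega)
    · obtain ⟨M, Z, hCF⟩ := hST G hG hnil
      have nM := hCF.nM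
      have hM : M ≠ ⊥ := by
        intro h
        have := hCF.lt
        rw [h] at this
        exact not_lt_bot this
      have hcard : Nat.card (G ⧸ M) < N := by
        rw [← hN]
        have h1 := Subgroup.card_eq_card_quotient_mul_card_subgroup M
        have h2 : 1 < Nat.card M := by
          rw [Subgroup.one_lt_card_iff_ne_bot]; exact hM
        have h3 : 0 < Nat.card (G ⧸ M) := Nat.card_pos
        rw [h1]
        nlinarith
      have hq := QuotientGroup.mk'_surjective M
      have hs' : Subgroup.closure (Set.range fun j => QuotientGroup.mk' M (s j)) = ⊤ := by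
        have h1 := congrArg (Subgroup.map (QuotientGroup.mk' M)) hs
        rw [MonoidHom.map_closure, Subgroup.map_top_of_surjective _ hq, ← Set.range_comp] at h1
        exact h1
      have hsol : Group.IsSolvable (G ⧸ M) := inferInstance
      have hg' : QuotientGroup.mk' M g ∈ commutator (G ⧸ M) := by
        have h1 : (commutator G).map (QuotientGroup.mk' M) ≤ commutator (G ⧸ M) := by
          rw [commutator_def, commutator_def, Subgroup.map_commutator]
          exact Subgroup.commutator_mono le_top le_top
        exact h1 ⟨g, hg, rfl⟩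
      obtain ⟨a', b', hc, hcl⟩ := ih _ hcard (G ⧸ M) rfl hsol _ hs' _ hg'
      choose a ha using fun i => hq (a' i)
      choose b hb using fun i => hq (b' i)
      have ea : a' = fun i => QuotientGroup.mk' M (a i) := funext fun i => (ha i).symm
      have eb : b' = fun i => QuotientGroup.mk' M (b i) := funext fun i => (hb i).symm
      rw [ea, eb] at hc hcl
      rw [← cp_map] at hc
      have hκ : g * (cp (d + 2) a b)⁻¹ ∈ M := by
        rw [← QuotientGroup.eq_one_iff]
        change QuotientGroup.mk' M _ = 1
        rw [map_mul, map_inv, hc, mul_inv_cancel]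
      obtain ⟨x, y, _, _, hT, hcl'⟩ := hGS G M Z hCF d s hs a b (cw_comap_closure M _ a b hcl) _ hκ
      refine ⟨fun i => x i * a i, fun i => y i * b i, ?_, hcl'⟩
      rw [cp_mul, hT]
      group

end Pool.Agent.H11.EL
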