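import Pool.Agent.H11.EL.Targets

/-!
# MP_0b603e_al: module GS (lifting from `G / M` to `G`)
-/

set_option autoImplicit false

open scoped commutatorElement

namespace Pool.Agent.H11.EL

private theorem gs_map_closure {G : Type} [Group G] (R : Subgroup G) [R.Normal] (n : ℕ)
    (a b : ℕ → G) (M : Subgroup G) (h : Subgroup.closure (ent n a b ∪ M) = ⊤) :
    Subgroup.closure (ent n (fun i => QuotientGroup.mk' R (a i)) (fun i => QuotientGroup.mk' R (b i)) ∪
      (M.map (QuotientGroup.mk' R) : Subgroup (G ⧸ R))) = ⊤ := by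
  have h1 := congrArg (Subgroup.map (QuotientGroup.mk' R)) h
  rw [MonoidHom.map_closure, Set.image_union, ent_map,
    Subgroup.map_top_of_surjective _ (QuotientGroup.mk'_surjective R)] at h1
  exact h1

private theorem gs_comap_closure {G : Type} [Group G] (R Z : Subgroup G) [R.Normal] (hR : R ≤ Z)
    (n : ℕ) (a b : ℕ → G)
    (h : Subgroup.closure (ent n (fun i => QuotientGroup.mk' R (a i))
      (fun i => QuotientGroup.mk' R (b i)) ∪ (Z.map (QuotientGroup.mk' R) : Subgroup (G ⧸ R))) = ⊤) :
    Subgroup.closure (ent n a b ∪ Z) = ⊤ := by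
  have h1 : (Subgroup.closure (ent n a b ∪ Z)).map (QuotientGroup.mk' R) = ⊤ := by
    rw [MonoidHom.map_closure, Set.image_union, ent_map]
    exact h
  have h2 : R ≤ Subgroup.closure (ent n a b ∪ Z) :=
    hR.trans fun z hz => Subgroup.subset_closure (Or.inr hz)
  have h3 := congrArg (Subgroup.comap (QuotientGroup.mk' R)) h1
  rw [Subgroup.comap_map_eq, QuotientGroup.ker_mk', sup_eq_left.2 h2, Subgroup.comap_top] at h3
  exact h3

theorem pf_gs : T_FR → T_CQ → T_LN → T_LL → T_GS := by
  intro hFR hCQ hLN hLL G _ _ M Z hCF d s hs a b hab κ hκ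
  have hle : Z ≤ M := hCF.lt.le
  have nZ := hCF.nZ
  have nM := hCF.nM
  let R : Subgroup G := ⁅Z, (⊤ : Subgroup G)⁆
  have hRZ : R ≤ Z := Subgroup.commutator_le_left Z ⊤
  have hq := QuotientGroup.mk'_surjective R
  have hCF' := hCQ G M Z R hCF hRZ
  have hcent : ∀ z ∈ Z.map (QuotientGroup.mk' R), ∀ g : G ⧸ R, z * g = g * z := by
    rintro _ ⟨z, hz, rfl⟩ g
    obtain ⟨g, rfl⟩ := hq g
    rw [← map_mul, ← map_mul]
    change QuotientGroup.mk' R (z * g) = QuotientGroup.mk' R (g * z)
    have h : ⁅z, g⁆ ∈ R := Subgroup.commutator_mem_commutator hz (Subgroup.mem_top g)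
    have h' : QuotientGroup.mk' R ⁅z, g⁆ = 1 := (QuotientGroup.eq_one_iff _).2 h
    rw [map_commutatorElement, commutatorElement_eq_one_iff_mul_comm] at h'
    rw [map_mul, map_mul]; exact h'
  have hs' : Subgroup.closure (Set.range fun j => QuotientGroup.mk' R (s j)) = ⊤ := by
    have h1 := congrArg (Subgroup.map (QuotientGroup.mk' R)) hs
    rw [MonoidHom.map_closure, Subgroup.map_top_of_surjective _ hq, ← Set.range_comp] at h1
    exact h1
  obtain ⟨x', y', hx', hy', hT, hcl⟩ := hLL (G ⧸ R) (M.map (QuotientGroup.mk' R))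
    (Z.map (QuotientGroup.mk' R)) hCF' hcent d (fun j => QuotientGroup.mk' R (s j)) hs'
    (fun i => QuotientGroup.mk' R (a i)) (fun i => QuotientGroup.mk' R (b i))
    (gs_map_closure R _ a b M hab) (QuotientGroup.mk' R κ) ⟨κ, hκ, rfl⟩
  choose x hx hxx using hx'
  choose y hy hyy using hy'
  have ex : x' = fun i => QuotientGroup.mk' R (x i) := funext fun i => (hxx i).symm
  have ey : y' = fun i => QuotientGroup.mk' R (y i) := funext fun i => (hyy i).symm
  subst ex ey
  rw [← Th_map] at hT
  have hcl1 : Subgroup.closure (ent (d + 2) (fun i => x i * a i) (fun i => y i * b i) ∪ Z) = ⊤ := by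
    apply gs_comap_closure R Z hRZ
    simp only [map_mul]
    exact hcl
  have hcl2 := hFR G M Z hCF _ hcl1
  have hρ : κ * (Th (d + 2) a b x y)⁻¹ ∈ R := by
    rw [← QuotientGroup.eq_one_iff]
    change QuotientGroup.mk' R _ = 1
    rw [map_mul, map_inv, hT, mul_inv_cancel]
  obtain ⟨u, w, hu, hw, huw⟩ := hLN G Z Z nZ
    (fun x hx y hy => hCF.zM x hx y (hle hy)) (fun x hx y hy => hCF.zM x hx y (hle hy))
    (d + 2) (fun i => x i * a i) (fun i => y i * b i) (by
      rw [eq_top_iff, ← hcl2]
      exact Subgroup.closure_mono Set.subset_union_left) _ hρ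
  refine ⟨fun i => u i * x i, fun i => w i * y i, fun i => M.mul_mem (hle (hu i)) (hx i),
    fun i => M.mul_mem (hle (hw i)) (hy i), ?_, ?_⟩
  · have e1 := cp_mul (d + 2) (fun i => x i * a i) (fun i => y i * b i) u w
    have e2 := cp_mul (d + 2) a b x y
    have e3 := cp_mul (d + 2) a b (fun i => u i * x i) (fun i => w i * y i)
    simp only [mul_assoc] at e1 e3
    have e4 : Th (d + 2) a b (fun i => u i * x i) (fun i => w i * y i) * cp (d + 2) a b =
        κ * cp (d + 2) a b := by
      rw [← e3, e1, huw, e2]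
      group
    exact mul_right_cancel e4
  · apply hFR G M Z hCF
    rw [eq_top_iff, ← hcl2, Subgroup.closure_le]
    rintro g ⟨i, hi, h | h⟩
    · have h1 : u i * x i * a i ∈ Subgroup.closure (ent (d + 2) (fun i => u i * x i * a i)
          (fun i => w i * y i * b i) ∪ Z) :=
        Subgroup.subset_closure (Or.inl ⟨i, hi, Or.inl rfl⟩)
      have h2 : u i ∈ Subgroup.closure (ent (d + 2) (fun i => u i * x i * a i)
          (fun i => w i * y i * b i) ∪ Z) :=
        Subgroup.subset_closure (Or.inr (hu i))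
      have h3 := Subgroup.mul_mem _ (Subgroup.inv_mem _ h2) h1
      rw [h]
      have e : (u i)⁻¹ * (u i * x i * a i) = x i * a i := by group
      rw [e] at h3
      exact h3
    · have h1 : w i * y i * b i ∈ Subgroup.closure (ent (d + 2) (fun i => u i * x i * a i)
          (fun i => w i * y i * b i) ∪ Z) :=
        Subgroup.subset_closure (Or.inl ⟨i, hi, Or.inr rfl⟩)
      have h2 : w i ∈ Subgroup.closure (ent (d + 2) (fun i => u i * x i * a i)
          (fun i => w i * y i * b i) ∪ Z) :=
        Subgroup.subset_closure (Or.inr (hw i))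
      have h3 := Subgroup.mul_mem _ (Subgroup.inv_mem _ h2) h1
      rw [h]
      have e : (w i)⁻¹ * (w i * y i * b i) = y i * b i := by group
      rw [e] at h3
      exact h3

end Pool.Agent.H11.EL
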