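import Pool.Agent.H11.EL.Targets

/-!
# MP_0b603e_al: module LL (the counting lemma)
-/

set_option autoImplicit false

open scoped commutatorElement

namespace Pool.Agent.H11.EL

private theorem ll_BB_congr {G : Type} [Group G] {n : ℕ} {a b x y u v x' y' : ℕ → G}
    (hx : ∀ i < n, x i = u i) (hy : ∀ i < n, y i = v i) :
    BB n a b x y x' y' = BB n a b u v x' y' := by
  unfold BB
  congr 1
  apply List.map_congr_left
  intro i hi
  rw [List.mem_range] at hi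
  rw [hx i hi, hy i hi]

private theorem ll_sq_mul {G : Type} [Group G] {n : ℕ} {M : Subgroup G} (m u : Fin n → M) :
    (sq n (1 : G) fun i => (((m * u) i : M) : G)) =
      fun i => sq n (1 : G) (fun j => ((m j : M) : G)) i * sq n (1 : G) (fun j => ((u j : M) : G)) i := by
  funext i
  unfold sq
  split_ifs with h
  · simp
  · simp

private theorem ll_num {c v z N w d : ℕ} (hc : c = v * z) (hz : 0 < z) (hv : 2 ≤ v)
    (hcv : c ≤ v ^ (d + 1)) (hw : w ≤ z ^ (2 * (d + 2)))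
    (h : ((c ^ (2 * (d + 2)) : ℕ) : ℝ) / c - N ≤ 0 ∨
      (((c ^ (2 * (d + 2)) : ℕ) : ℝ) / c - N) ^ 2 ≤ (w : ℝ) * (c ^ (2 * (d + 2)) : ℕ))
    (hN : N ≤ v ^ d * z ^ (2 * (d + 2))) : False := by
  have hz' : (0 : ℝ) < z := by exact_mod_cast hz
  have hv' : (2 : ℝ) ≤ v := by exact_mod_cast hv
  have hv0 : (0 : ℝ) < v := by linarith
  have hc0 : (0 : ℝ) < c := by rw [hc]; push_cast; positivity
  have hcv' : (c : ℝ) ≤ (v : ℝ) ^ (d + 1) := by exact_mod_cast hcv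
  have hw' : (w : ℝ) ≤ (z : ℝ) ^ (2 * (d + 2)) := by exact_mod_cast hw
  have hN' : (N : ℝ) ≤ (v : ℝ) ^ d * (z : ℝ) ^ (2 * (d + 2)) := by exact_mod_cast hN
  have e1 : ((c ^ (2 * (d + 2)) : ℕ) : ℝ) = ((v : ℝ) ^ (2 * (d + 2))) * (z : ℝ) ^ (2 * (d + 2)) := by
    rw [hc]; push_cast; rw [mul_pow]
  have Zp : (0 : ℝ) < (z : ℝ) ^ (2 * (d + 2)) := by positivity
  have low : (v : ℝ) ^ (d + 3) * (z : ℝ) ^ (2 * (d + 2)) ≤ ((c ^ (2 * (d + 2)) : ℕ) : ℝ) / c := by
    rw [le_div_iff₀ hc0, e1]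
    calc (v : ℝ) ^ (d + 3) * (z : ℝ) ^ (2 * (d + 2)) * c
        ≤ (v : ℝ) ^ (d + 3) * (z : ℝ) ^ (2 * (d + 2)) * (v : ℝ) ^ (d + 1) := by
          apply mul_le_mul_of_nonneg_left hcv'
          positivity
      _ = (v : ℝ) ^ (2 * (d + 2)) * (z : ℝ) ^ (2 * (d + 2)) := by
          rw [show 2 * (d + 2) = (d + 3) + (d + 1) by ring, pow_add (v : ℝ)]; ring
  have gap : (v : ℝ) ^ (d + 2) + (v : ℝ) ^ d < (v : ℝ) ^ (d + 3) := by
    have h1 : (0 : ℝ) < (v : ℝ) ^ d := by positivity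
    have h2 : (v : ℝ) ^ (d + 2) = (v : ℝ) ^ d * v ^ 2 := by ring
    have h3 : (v : ℝ) ^ (d + 3) = (v : ℝ) ^ d * v ^ 3 := by ring
    rw [h2, h3]
    have h4 : (v : ℝ) ^ 2 + 1 < (v : ℝ) ^ 3 := by nlinarith [sq_nonneg ((v : ℝ) - 2)]
    nlinarith
  have big : (v : ℝ) ^ (d + 2) * (z : ℝ) ^ (2 * (d + 2)) <
      ((c ^ (2 * (d + 2)) : ℕ) : ℝ) / c - N := by
    have : (v : ℝ) ^ (d + 2) * (z : ℝ) ^ (2 * (d + 2)) + (v : ℝ) ^ d * (z : ℝ) ^ (2 * (d + 2)) <
        (v : ℝ) ^ (d + 3) * (z : ℝ) ^ (2 * (d + 2)) := by nlinarith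
    linarith
  have pos : (0 : ℝ) < (v : ℝ) ^ (d + 2) * (z : ℝ) ^ (2 * (d + 2)) := by positivity
  rcases h with h | h
  · linarith
  · have h1 : ((v : ℝ) ^ (d + 2) * (z : ℝ) ^ (2 * (d + 2))) ^ 2 <
        (((c ^ (2 * (d + 2)) : ℕ) : ℝ) / c - N) ^ 2 := by
      apply pow_lt_pow_left₀ big pos.le (by norm_num)
    have h2 : (w : ℝ) * (c ^ (2 * (d + 2)) : ℕ) ≤
        ((v : ℝ) ^ (d + 2) * (z : ℝ) ^ (2 * (d + 2))) ^ 2 := by
      rw [e1]
      calc (w : ℝ) * ((v : ℝ) ^ (2 * (d + 2)) * (z : ℝ) ^ (2 * (d + 2)))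
          ≤ (z : ℝ) ^ (2 * (d + 2)) * ((v : ℝ) ^ (2 * (d + 2)) * (z : ℝ) ^ (2 * (d + 2))) := by
            apply mul_le_mul_of_nonneg_right hw'
            positivity
        _ = ((v : ℝ) ^ (d + 2) * (z : ℝ) ^ (2 * (d + 2))) ^ 2 := by
            rw [mul_pow, ← pow_mul, mul_comm (d + 2) 2]; ring
    linarith

theorem pf_ll : T_BL → T_BC → T_BM → T_ND → T_RA → T_MO → T_BA → T_SZ → T_LM → T_LL := by
  intro hBL hBC hBM hND hRA hMO hBA hSZ hLM G _ _ M Z hCF hZ d s hs a b hab κ hκ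
  have hle : Z ≤ M := hCF.lt.le
  have cc : ∀ x ∈ M, ∀ y ∈ M, ∀ g : G, ⁅x, y⁆ * g = g * ⁅x, y⁆ := fun x hx y hy g =>
    hZ _ (hCF.cM (Subgroup.commutator_mem_commutator hx hy)) g
  by_contra hno
  push Not at hno
  -- the groups
  let X := (Fin (d + 2) → M) × (Fin (d + 2) → M)
  let T : X → M := fun m => ⟨TT (d + 2) a b M m,
    Th_mem hCF.nM (fun i _ => sq_mem _ i) (fun i _ => sq_mem _ i)⟩
  have hDM : ⁅M, M⁆ ≤ M := hCF.cM.trans hle
  let B : X → X → M := fun m u => ⟨BB (d + 2) a b (sq (d + 2) (1 : G) fun i => ((m.1 i : M) : G))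
    (sq (d + 2) (1 : G) fun i => ((m.2 i : M) : G)) (sq (d + 2) (1 : G) fun i => ((u.1 i : M) : G))
    (sq (d + 2) (1 : G) fun i => ((u.2 i : M) : G)),
    hDM (hBC G M hCF.nM _ a b _ _ _ _ (sq_mem _) (sq_mem _) (sq_mem _) (sq_mem _))⟩
  let D' : Subgroup M := (⁅M, M⁆).subgroupOf M
  let W : Subgroup X := (Subgroup.pi Set.univ fun _ => Z.subgroupOf M).prod
    (Subgroup.pi Set.univ fun _ => Z.subgroupOf M)
  have h1 : ∀ δ ∈ D', ∀ y : M, δ * y = y * δ := by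
    intro δ hδ y
    have h : (δ : G) ∈ ⁅M, M⁆ := hδ
    exact Subtype.ext (hZ _ (hCF.cM h) y)
  have h2 : ∀ m u : X, T (m * u) = T m * T u * B m u := by
    intro m u
    apply Subtype.ext
    change TT (d + 2) a b M (m * u) = TT (d + 2) a b M m * TT (d + 2) a b M u * _
    have h := hBL G M hCF.nM cc (d + 2) a b (sq (d + 2) (1 : G) fun i => ((m.1 i : M) : G))
      (sq (d + 2) (1 : G) fun i => ((m.2 i : M) : G)) (sq (d + 2) (1 : G) fun i => ((u.1 i : M) : G))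
      (sq (d + 2) (1 : G) fun i => ((u.2 i : M) : G)) (sq_mem _) (sq_mem _) (sq_mem _) (sq_mem _)
    rw [← ll_sq_mul, ← ll_sq_mul] at h
    exact h
  have h3 : ∀ m u : X, B m u ∈ D' := fun m u =>
    hBC G M hCF.nM _ a b _ _ _ _ (sq_mem _) (sq_mem _) (sq_mem _) (sq_mem _)
  have h4 : ∀ m m' u : X, B (m * m') u = B m u * B m' u := by
    intro m m' u
    apply Subtype.ext
    have h := hBM G M hCF.nM cc (d + 2) a b (sq (d + 2) (1 : G) fun i => ((m.1 i : M) : G))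
      (sq (d + 2) (1 : G) fun i => ((m.2 i : M) : G))
      (sq (d + 2) (1 : G) fun i => ((m'.1 i : M) : G))
      (sq (d + 2) (1 : G) fun i => ((m'.2 i : M) : G))
      (sq (d + 2) (1 : G) fun i => ((u.1 i : M) : G))
      (sq (d + 2) (1 : G) fun i => ((u.2 i : M) : G))
      (sq_mem _) (sq_mem _) (sq_mem _) (sq_mem _) (sq_mem _) (sq_mem _)
    rw [← ll_sq_mul, ← ll_sq_mul] at h
    exact h
  have h5 : ∀ y : M, ∃ m : X, ∃ δ ∈ D', T m * δ = y := by
    intro y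
    have hy : (y : G) ∈ ⁅M, (⊤ : Subgroup G)⁆ := by rw [hCF.top]; exact y.2
    obtain ⟨x, x', hx, hx', δ, hδ, h⟩ := hLM G M hCF.nM (d + 2) a b hab y hy
    refine ⟨(fun i => ⟨x i, hx i⟩, fun i => ⟨x' i, hx' i⟩), ⟨δ, hDM hδ⟩, hδ, ?_⟩
    apply Subtype.ext
    change TT (d + 2) a b M _ * δ = y
    rw [← h]
    congr 1
    unfold TT
    apply Th_congr
    · intro i hi; rw [sq_lt _ _ hi]
    · intro i hi; rw [sq_lt _ _ hi]
  have h6 : ∀ u : X, u ∉ W → ∀ δ ∈ D', ∃ m : X, B m u = δ := by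
    intro u hu δ hδ
    let φ : X →* M := MonoidHom.mk' (fun m => B m u) (fun m m' => h4 m m' u)
    let D0 : Subgroup G := φ.range.map M.subtype
    have hD0 : D0 ≤ ⁅M, M⁆ := by
      rintro _ ⟨_, ⟨m, rfl⟩, rfl⟩
      exact h3 m u
    by_cases hE : D0 = ⁅M, M⁆
    · have : (δ : G) ∈ D0 := by rw [hE]; exact hδ
      obtain ⟨e, ⟨m, hm⟩, he⟩ := this
      refine ⟨m, ?_⟩
      have h : e = δ := Subtype.ext he
      rw [← h, ← hm]; rfl
    · exfalso
      apply hu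
      have hlt : D0 < ⁅M, M⁆ := lt_of_le_of_ne hD0 hE
      have rad := hRA G M Z D0 hCF hZ hlt
      have key := hND G M Z D0 hCF.nM hCF.nZ hle cc hZ rad (d + 2) a b
        (sq (d + 2) (1 : G) fun i => ((u.1 i : M) : G))
        (sq (d + 2) (1 : G) fun i => ((u.2 i : M) : G)) (sq_mem _) (sq_mem _) (by
          intro x y hx hy
          refine ⟨B (fun i => ⟨x i, hx i⟩, fun i => ⟨y i, hy i⟩) u,
            ⟨(fun i => ⟨x i, hx i⟩, fun i => ⟨y i, hy i⟩), rfl⟩, ?_⟩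
          apply ll_BB_congr
          · intro i hi; rw [sq_lt _ _ hi]
          · intro i hi; rw [sq_lt _ _ hi])
      refine ⟨fun i _ => ?_, fun i _ => ?_⟩
      · have h := (key i i.2).1
        rw [sq_lt _ _ i.2] at h
        exact h
      · have h := (key i i.2).2
        rw [sq_lt _ _ i.2] at h
        exact h
  have mo := hMO X M D' W T B h1 h2 h3 h4 h5 h6 ⟨κ, hκ⟩
  -- the numbers
  have hX : Nat.card X = Nat.card M ^ (2 * (d + 2)) := by
    change Nat.card ((Fin (d + 2) → M) × (Fin (d + 2) → M)) = _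
    rw [Nat.card_prod, Nat.card_fun, Nat.card_eq_fintype_card (α := Fin (d + 2)), Fintype.card_fin,
      ← pow_add]
    congr 1; ring
  have hW : Nat.card W ≤ Nat.card Z ^ (2 * (d + 2)) := by
    have e : Nat.card ((Fin (d + 2) → Z) × (Fin (d + 2) → Z)) = Nat.card Z ^ (2 * (d + 2)) := by
      rw [Nat.card_prod, Nat.card_fun, Nat.card_eq_fintype_card (α := Fin (d + 2)),
        Fintype.card_fin, ← pow_add]
      congr 1; ring
    rw [← e]
    refine Nat.card_le_card_of_injective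
      (fun m : W => ((fun i => ⟨((m.1.1 i : M) : G), m.2.1 i (Set.mem_univ _)⟩,
        fun i => ⟨((m.1.2 i : M) : G), m.2.2 i (Set.mem_univ _)⟩) :
          (Fin (d + 2) → Z) × (Fin (d + 2) → Z))) ?_
    intro m m' h
    apply Subtype.ext
    have h1 := congrArg Prod.fst h
    have h2 := congrArg Prod.snd h
    refine Prod.ext (funext fun i => Subtype.ext ?_) (funext fun i => Subtype.ext ?_)
    · exact Subtype.mk.inj (congrFun h1 i)
    · exact Subtype.mk.inj (congrFun h2 i)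
  have hN : Nat.card {m : X // T m = ⟨κ, hκ⟩} ≤ Z.relIndex M ^ d * Nat.card Z ^ (2 * (d + 2)) := by
    refine le_trans ?_ (hBA G M Z hCF d s hs (d + 2) a b hab)
    refine Nat.card_le_card_of_injective (fun m => ⟨m.1, ?_⟩) ?_
    · have := hno (sq (d + 2) (1 : G) fun i => ((m.1.1 i : M) : G))
        (sq (d + 2) (1 : G) fun i => ((m.1.2 i : M) : G)) (sq_mem _) (sq_mem _)
        (congrArg Subtype.val m.2)
      exact this
    · intro m m' h
      apply Subtype.ext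
      exact Subtype.mk.inj h
  have hcard : Nat.card M = Z.relIndex M * Nat.card Z := by
    have h := Subgroup.card_mul_index (Z.subgroupOf M)
    have e : Nat.card (Z.subgroupOf M) = Nat.card Z :=
      Nat.card_congr (Subgroup.subgroupOfEquivOfLe hle).toEquiv
    rw [e] at h
    rw [← h, mul_comm]; rfl
  have hv : 2 ≤ Z.relIndex M := by
    have h0 : Z.relIndex M ≠ 0 := by
      intro h
      rw [h, zero_mul] at hcard
      exact Nat.card_pos.ne' hcard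
    have h1 : Z.relIndex M ≠ 1 := by
      intro h
      rw [Subgroup.relIndex_eq_one] at h
      exact absurd h (not_le_of_gt hCF.lt)
    omega
  rw [hX] at mo
  refine ll_num (c := Nat.card M) (v := Z.relIndex M) (z := Nat.card Z)
    (N := Nat.card {m : X // T m = ⟨κ, hκ⟩}) (w := Nat.card W) (d := d) hcard Nat.card_pos hv
    (hSZ G M Z hCF hZ d s hs) hW (Or.inr mo) hN

end Pool.Agent.H11.EL
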