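import Pool.Agent.H11.EL.Targets

/-!
# MP_0b603e_al (uniform ellipticity of words): the complexity of a group
-/

set_option autoImplicit false

open scoped commutatorElement

namespace Pool.Agent.H11.EL

/-- `Cx ρ k G`: the group `G` has complexity at most `k` with respect to `ρ`.
Complexity `0`: nilpotent groups and finite groups of order at most `ρ`.
Complexity `k + 1`: complexity `k`, or an extension of a group of complexity `k` by a group of
complexity `k`, or the product `A B` of two subgroups of complexity `k`. -/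
def Cx (ρ : ℕ) : ℕ → (G : Type) → [Group G] → Prop
  | 0, G, _ => Group.IsNilpotent G ∨ (Finite G ∧ Nat.card G ≤ ρ)
  | k + 1, G, _ => Cx ρ k G ∨ (∃ (N : Subgroup G) (_ : N.Normal), Cx ρ k N ∧ Cx ρ k (G ⧸ N)) ∨
      ∃ A B : Subgroup G, (∀ g : G, ∃ a ∈ A, ∃ b ∈ B, g = a * b) ∧ Cx ρ k A ∧ Cx ρ k B

/-- extensions -/
def T_XT : Prop := ∀ (r : ℕ) (w : FreeGroup (Fin r)), MA w → ∀ m m' : ℕ, ∃ M : ℕ,
  ∀ (G : Type) [Group G] (N : Subgroup G) [N.Normal],
    (∀ x ∈ N, ∀ y ∈ N, PW w m ⁅x, y⁆) → (∀ x y : G ⧸ N, PW w m' ⁅x, y⁆) →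
      ∀ x y : G, PW w M ⁅x, y⁆

/-- products of length at most the order -/
def T_SP : Prop := ∀ (G : Type) [Group G] (S : Set G) (n : ℕ), 1 ∈ S → (∀ x ∈ S, x⁻¹ ∈ S) →
  Finite (Subgroup.closure S) → Nat.card (Subgroup.closure S) ≤ n → ∀ g ∈ Subgroup.closure S,
    ∃ l : Fin n → G, (∀ i, l i ∈ S) ∧ g = (List.ofFn l).prod

/-- finite groups all of whose proper subgroups are abelian (Miller, Moreno) -/
def T_MM : Prop := ∀ (G : Type) [Group G] [Finite G],
  (∀ H : Subgroup G, H ≠ ⊤ → ∀ x ∈ H, ∀ y ∈ H, x * y = y * x) → derivedSeries G 2 = ⊥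

/-- groups of bounded order -/
def T_LB : Prop := ∀ (r : ℕ) (w : FreeGroup (Fin r)), MA w → ∀ ρ : ℕ, ∃ M : ℕ,
  ∀ (G : Type) [Group G], Finite G → Nat.card G ≤ ρ → ∀ x y : G, PW w M ⁅x, y⁆

/-- the complexity is invariant under isomorphisms -/
def T_CC : Prop := ∀ (ρ k : ℕ) (G H : Type) [Group G] [Group H], Nonempty (G ≃* H) →
  Cx ρ k G → Cx ρ k H

/-- commutators in groups of bounded complexity -/
def T_CM : Prop := ∀ (r : ℕ) (w : FreeGroup (Fin r)), MA w → ∀ ρ k : ℕ, ∃ M : ℕ,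
  ∀ (G : Type) [Group G], Cx ρ k G → ∀ x y : G, PW w M ⁅x, y⁆

/-- finite soluble groups whose Hall `π'`-subgroups have bounded complexity, `π` bounded -/
def T_CP : Prop := ∀ (n ρ k : ℕ) (G : Type) [Group G] [Finite G], Group.IsSolvable G →
  ∀ π : Finset ℕ, (∀ p ∈ π, p.Prime) → π.card ≤ n →
    (∀ K : Subgroup G, (∀ p ∈ π, (Nat.card K).Coprime p) → Cx ρ k K) → Cx ρ (k + n) G

/-- commutators with elements of an abelian normal subgroup -/
def T_VE : Prop := ∀ (G : Type) [Group G] (A : Subgroup G), A.Normal →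
  (∀ x ∈ A, ∀ y ∈ A, x * y = y * x) → ∀ (d : ℕ) (s : ℕ → G),
    Subgroup.closure {g | ∃ i < d, g = s i} = ⊤ → ∀ κ ∈ ⁅A, (⊤ : Subgroup G)⁆,
      ∃ a : ℕ → G, (∀ i, a i ∈ A) ∧ cp d a s = κ

/-- central-by-bounded groups (Schur) -/
def T_VF : Prop := ∀ m : ℕ, ∃ n : ℕ, ∀ (G : Type) [Group G] [Finite G],
  (Subgroup.center G).index ≤ m → ∀ g ∈ commutator G, ∃ a b : ℕ → G, cp n a b = g

/-- the commutator width of abelian-by-bounded groups -/
def T_VD : Prop := ∀ d m : ℕ, ∃ n : ℕ, ∀ (G : Type) [Group G] [Finite G] (A : Subgroup G),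
  A.Normal → (∀ x ∈ A, ∀ y ∈ A, x * y = y * x) → A.index ≤ m → ∀ s : Fin d → G,
    Subgroup.closure (Set.range s) = ⊤ → ∀ g ∈ commutator G, ∃ a b : ℕ → G, cp n a b = g

/-- the commutator width of soluble-by-bounded groups -/
def T_VC : Prop := ∀ d m : ℕ, ∃ n : ℕ, ∀ (G : Type) [Group G] [Finite G] (S : Subgroup G),
  S.Normal → Group.IsSolvable S → S.index ≤ m → ∀ s : Fin d → G,
    Subgroup.closure (Set.range s) = ⊤ → ∀ g ∈ commutator G, ∃ a b : ℕ → G, cp n a b = g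

/-- the theorem: width in soluble-by-bounded groups of bounded complexity -/
def T_FV : Prop := ∀ (r : ℕ) (w : FreeGroup (Fin r)), MA w → ∀ ρ k d : ℕ, ∃ K : ℕ,
  ∀ (G : Type) [Group G] [Finite G], Cx ρ k G →
    (∃ S : Subgroup G, S.Normal ∧ Group.IsSolvable S ∧ S.index ≤ ρ) →
    (∃ s : Finset G, s.card ≤ d ∧ Subgroup.closure (s : Set G) = ⊤) →
    ∀ g ∈ Subgroup.closure (Set.range (fun f : Fin r → G => FreeGroup.lift f w)), PW w K g

end Pool.Agent.H11.EL
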