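import Pool.Agent.H11.EL.Fin
import Pool.Agent.H14.EL.EX
import Pool.Agent.H14.EL.NJ
import Pool.Agent.H19.EL.NK
import Pool.Agent.H3.EL.NI
import Pool.Agent.H3.EL.IT
import Pool.Agent.H35.EL.NF
import Pool.Agent.H12.EL.MG
import Pool.Agent.H12.EL.HA
import Pool.Agent.H14.EL.XT
import Pool.Agent.H14.EL.SP
import Pool.Agent.H58.EL.MM
import Pool.Agent.H58.EL.LB
import Pool.Agent.H51.EL.CC
import Pool.Agent.H23.EL.CM
import Pool.Agent.H58.EL.CP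
import Pool.Agent.H84.EL.VE
import Pool.Agent.H69.EL.VF
import Pool.Agent.H3.EL.VD
import Pool.Agent.H74.EL.VC
import Pool.Agent.H74.EL.AB
import Pool.Agent.H74.EL.BC
import Pool.Agent.H49.EL.BL
import Pool.Agent.H33.EL.BM
import Pool.Agent.H33.EL.ND
import Pool.Agent.H19.EL.NE
import Pool.Agent.H47.EL.RA
import Pool.Agent.H47.EL.ST
import Pool.Agent.H47.EL.SZ
import Pool.Agent.H91.EL.MO
import Pool.Agent.H19.EL.BA
import Pool.Agent.H59.EL.LN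
import Pool.Agent.H48.EL.LM
import Pool.Agent.H58.EL.FR
import Pool.Agent.H85.EL.CQ
import Pool.Agent.H85.EL.NB
import Pool.Agent.H11.EL.LL
import Pool.Agent.H11.EL.GS
import Pool.Agent.H11.EL.CW

/-!
# MP_0b603e_al: assembly of the modules
-/

set_option autoImplicit false

open scoped commutatorElement

namespace Pool.Agent.H11.EL

theorem all_NI : T_NI := Pool.Agent.H3.EL.pf_ni Pool.Agent.H14.EL.pf_nj Pool.Agent.H19.EL.pf_nk

theorem all_MG : T_MG := Pool.Agent.H12.EL.pf_mg Pool.Agent.H3.EL.pf_it Pool.Agent.H35.EL.pf_nf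

theorem all_CM : T_CM := Pool.Agent.H23.EL.pf_cm Pool.Agent.H14.EL.pf_ex all_NI all_MG
  (Pool.Agent.H14.EL.pf_xt Pool.Agent.H35.EL.pf_nf)
  (Pool.Agent.H58.EL.pf_lb Pool.Agent.H14.EL.pf_sp Pool.Agent.H58.EL.pf_mm)

theorem all_CP : T_CP := Pool.Agent.H58.EL.pf_cp Pool.Agent.H12.EL.pf_ha Pool.Agent.H51.EL.pf_cc

theorem all_LL : T_LL := pf_ll Pool.Agent.H49.EL.pf_bl Pool.Agent.H74.EL.pf_bc
  Pool.Agent.H33.EL.pf_bm (Pool.Agent.H33.EL.pf_nd Pool.Agent.H19.EL.pf_ne)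
  Pool.Agent.H47.EL.pf_ra Pool.Agent.H91.EL.pf_mo Pool.Agent.H19.EL.pf_ba
  Pool.Agent.H47.EL.pf_sz (Pool.Agent.H48.EL.pf_lm Pool.Agent.H59.EL.pf_ln)

theorem all_CW : T_CW := pf_cw Pool.Agent.H47.EL.pf_st Pool.Agent.H85.EL.pf_nb
  (pf_gs Pool.Agent.H58.EL.pf_fr Pool.Agent.H85.EL.pf_cq Pool.Agent.H59.EL.pf_ln all_LL)

theorem all_VC : T_VC := Pool.Agent.H74.EL.VC.pf_vc all_CW
  (Pool.Agent.H3.EL.pf_vd Pool.Agent.H84.EL.pf_ve
    (Pool.Agent.H69.EL.pf_vf Pool.Agent.H14.EL.pf_sp))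

theorem all_comm : ∀ (r : ℕ) (w : FreeGroup (Fin r)), MA w → ∀ ρ k : ℕ, ∃ M : ℕ,
    ∀ (G : Type) [Group G], Complexity ρ k G → ∀ x y : G, PW w M ⁅x, y⁆ :=
  comm_of_Complexity all_CM all_CP Pool.Agent.H35.EL.pf_nf
    (Pool.Agent.H14.EL.pf_xt Pool.Agent.H35.EL.pf_nf) all_MG

theorem all_width : ∀ (r : ℕ) (w : FreeGroup (Fin r)), MA w → ∀ ρ k d : ℕ, ∃ K : ℕ,
    ∀ (G : Type) [Group G] [Finite G], Complexity ρ k G →
      (∃ S : Subgroup G, S.Normal ∧ Group.IsSolvable S ∧ S.index ≤ ρ) →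
      (∃ s : Finset G, s.card ≤ d ∧ Subgroup.closure (s : Set G) = ⊤) →
      ∀ g ∈ Subgroup.closure (Set.range (fun f : Fin r → G => FreeGroup.lift f w)), PW w K g :=
  width_of_Complexity all_CM all_CP Pool.Agent.H35.EL.pf_nf
    (Pool.Agent.H14.EL.pf_xt Pool.Agent.H35.EL.pf_nf) all_MG all_VC Pool.Agent.H74.EL.pf_ab

end Pool.Agent.H11.EL
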