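import Mathlib

/-!
# MP_0b603e_al (uniform ellipticity of words): definitions and basic lemmas
-/

set_option autoImplicit false

open scoped commutatorElement

namespace Pool.Agent.H11.EL

/-! ## Products of values of a word -/

/-- `g` is a product of at most `k` values of the word `w` and inverses of values -/
def PW {r : ℕ} (w : FreeGroup (Fin r)) {G : Type} [Group G] (k : ℕ) (g : G) : Prop :=
  ∃ l : List G, l.length ≤ k ∧
    (∀ x ∈ l, x ∈ Set.range (fun f : Fin r → G => FreeGroup.lift f w) ∨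
      x⁻¹ ∈ Set.range (fun f : Fin r → G => FreeGroup.lift f w)) ∧ l.prod = g

/-- every metabelian group satisfying the law `w` is abelian -/
def MA {r : ℕ} (w : FreeGroup (Fin r)) : Prop :=
  ∀ (H : Type) [Group H], derivedSeries H 2 = ⊥ →
    (∀ f : Fin r → H, FreeGroup.lift f w = 1) → ∀ x y : H, x * y = y * x

section PW

variable {r : ℕ} {w : FreeGroup (Fin r)} {G : Type} [Group G]

theorem PW.one (k : ℕ) : PW w k (1 : G) := ⟨[], by simp, by simp, rfl⟩

theorem PW.mono {k l : ℕ} {g : G} (h : PW w k g) (hkl : k ≤ l) : PW w l g := by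
  obtain ⟨L, h1, h2, h3⟩ := h
  exact ⟨L, h1.trans hkl, h2, h3⟩

theorem PW.val (f : Fin r → G) : PW w 1 (FreeGroup.lift f w) :=
  ⟨[FreeGroup.lift f w], by simp, fun x hx => by
    rw [List.mem_singleton] at hx
    exact Or.inl ⟨f, hx.symm⟩, by simp⟩

theorem PW.mul {k l : ℕ} {g h : G} (hg : PW w k g) (hh : PW w l h) : PW w (k + l) (g * h) := by
  obtain ⟨L, h1, h2, h3⟩ := hg
  obtain ⟨L', h1', h2', h3'⟩ := hh
  refine ⟨L ++ L', ?_, ?_, ?_⟩
  · rw [List.length_append]; omega
  · intro x hx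
    rcases List.mem_append.1 hx with h | h
    · exact h2 x h
    · exact h2' x h
  · rw [List.prod_append, h3, h3']

theorem PW.inv {k : ℕ} {g : G} (hg : PW w k g) : PW w k g⁻¹ := by
  obtain ⟨L, h1, h2, h3⟩ := hg
  refine ⟨(L.map fun x => x⁻¹).reverse, ?_, ?_, ?_⟩
  · simpa using h1
  · intro x hx
    rw [List.mem_reverse, List.mem_map] at hx
    obtain ⟨y, hy, rfl⟩ := hx
    rcases h2 y hy with h | h
    · exact Or.inr (by rwa [inv_inv])
    · exact Or.inl h
  · rw [← List.prod_inv_reverse, h3]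

theorem PW.map {H : Type} [Group H] (φ : G →* H) {k : ℕ} {g : G} (hg : PW w k g) :
    PW w k (φ g) := by
  obtain ⟨L, h1, h2, h3⟩ := hg
  have key : ∀ f : Fin r → G, φ (FreeGroup.lift f w) = FreeGroup.lift (fun i => φ (f i)) w := by
    intro f
    have : φ.comp (FreeGroup.lift f) = FreeGroup.lift (fun i => φ (f i)) := by
      ext i; simp
    rw [← this]; rfl
  refine ⟨L.map φ, by simpa using h1, ?_, ?_⟩
  · intro x hx
    rw [List.mem_map] at hx
    obtain ⟨y, hy, rfl⟩ := hx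
    rcases h2 y hy with ⟨f, hf⟩ | ⟨f, hf⟩
    · exact Or.inl ⟨fun i => φ (f i), by
        change FreeGroup.lift (fun i => φ (f i)) w = φ y
        rw [← key]; exact congrArg φ hf⟩
    · exact Or.inr ⟨fun i => φ (f i), by
        change FreeGroup.lift (fun i => φ (f i)) w = (φ y)⁻¹
        rw [← key, ← map_inv]; exact congrArg φ hf⟩
  · rw [← h3, map_list_prod]

/-- a product of `n` elements, each in `PW w k` -/
theorem PW.list {k : ℕ} : ∀ (L : List G), (∀ x ∈ L, PW w k x) → PW w (L.length * k) L.prod := by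
  intro L
  induction L with
  | nil => intro _; simpa using PW.one (w := w) (G := G) 0
  | cons x L ih =>
    intro h
    have h1 := h x List.mem_cons_self
    have h2 := ih fun y hy => h y (List.mem_cons_of_mem x hy)
    have h3 := h1.mul h2
    rw [List.prod_cons, List.length_cons]
    refine h3.mono ?_
    rw [Nat.succ_mul]
    omega

end PW

/-! ## Towers -/

/-- `G` has a subnormal series of length `h` each factor of which is nilpotent or has order
divisible by at most `ρ` primes -/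
def Tow (ρ : ℕ) : ℕ → (G : Type) → [Group G] → Prop
  | 0, G, _ => ∀ g : G, g = 1
  | h + 1, G, _ => ∃ (N : Subgroup G) (_ : N.Normal), Tow ρ h N ∧
      (Group.IsNilpotent (G ⧸ N) ∨ N.index.primeFactors.card ≤ ρ)

/-! ## Products of commutators -/

section cp

variable {G : Type} [Group G]

/-- the product of the commutators `⁅a i, b i⁆`, `i < n` -/
def cp (n : ℕ) (a b : ℕ → G) : G := ((List.range n).map fun i => ⁅a i, b i⁆).prod

/-- `⁅x a, y b⁆ = th a b x y ⁅a, b⁆` -/
def th (a b x y : G) : G :=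
  x * (a * y * a⁻¹) * (a * b * a⁻¹ * x⁻¹ * (a * b * a⁻¹)⁻¹) * (⁅a, b⁆ * y⁻¹ * ⁅a, b⁆⁻¹)

/-- `cp n (x a) (y b) = Th n a b x y * cp n a b` -/
def Th (n : ℕ) (a b x y : ℕ → G) : G :=
  ((List.range n).map fun i => cp i a b * th (a i) (b i) (x i) (y i) * (cp i a b)⁻¹).prod

/-- the bilinear form of one commutator -/
def be (a b x y x' y' : G) : G :=
  ⁅x', a * y * a⁻¹⁆ *
    ⁅x' * (a * y' * a⁻¹) * (a * b * a⁻¹ * x'⁻¹ * (a * b * a⁻¹)⁻¹),
      a * b * a⁻¹ * x⁻¹ * (a * b * a⁻¹)⁻¹⁆ *
    ⁅th a b x' y', ⁅a, b⁆ * y⁻¹ * ⁅a, b⁆⁻¹⁆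

/-- the bilinear form of the product of commutators -/
def BB (n : ℕ) (a b x y x' y' : ℕ → G) : G :=
  ((List.range n).map fun i => be (a i) (b i) (x i) (y i) (x' i) (y' i) *
    ⁅Th i a b x' y', cp i a b * th (a i) (b i) (x i) (y i) * (cp i a b)⁻¹⁆).prod

@[simp] theorem cp_zero (a b : ℕ → G) : cp 0 a b = 1 := rfl

theorem cp_succ (n : ℕ) (a b : ℕ → G) : cp (n + 1) a b = cp n a b * ⁅a n, b n⁆ := by
  unfold cp
  rw [List.range_succ, List.map_append, List.prod_append]
  simp

@[simp] theorem Th_zero (a b x y : ℕ → G) : Th 0 a b x y = 1 := rfl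

theorem Th_succ (n : ℕ) (a b x y : ℕ → G) : Th (n + 1) a b x y =
    Th n a b x y * (cp n a b * th (a n) (b n) (x n) (y n) * (cp n a b)⁻¹) := by
  unfold Th
  rw [List.range_succ, List.map_append, List.prod_append]
  simp

@[simp] theorem BB_zero (a b x y x' y' : ℕ → G) : BB 0 a b x y x' y' = 1 := rfl

theorem BB_succ (n : ℕ) (a b x y x' y' : ℕ → G) : BB (n + 1) a b x y x' y' =
    BB n a b x y x' y' * (be (a n) (b n) (x n) (y n) (x' n) (y' n) *
      ⁅Th n a b x' y', cp n a b * th (a n) (b n) (x n) (y n) * (cp n a b)⁻¹⁆) := by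
  unfold BB
  rw [List.range_succ, List.map_append, List.prod_append]
  simp

theorem comm_mul (a b x y : G) : ⁅x * a, y * b⁆ = th a b x y * ⁅a, b⁆ := by
  simp only [th, commutatorElement_def]
  group

theorem cp_mul (n : ℕ) (a b x y : ℕ → G) :
    cp n (fun i => x i * a i) (fun i => y i * b i) = Th n a b x y * cp n a b := by
  induction n with
  | zero => simp
  | succ n ih =>
    rw [cp_succ, cp_succ, Th_succ, ih, comm_mul]
    group

theorem cp_congr {n : ℕ} {a b a' b' : ℕ → G} (ha : ∀ i < n, a i = a' i)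
    (hb : ∀ i < n, b i = b' i) : cp n a b = cp n a' b' := by
  unfold cp
  congr 1
  apply List.map_congr_left
  intro i hi
  rw [List.mem_range] at hi
  rw [ha i hi, hb i hi]

theorem Th_congr {n : ℕ} {a b x y x' y' : ℕ → G} (hx : ∀ i < n, x i = x' i)
    (hy : ∀ i < n, y i = y' i) : Th n a b x y = Th n a b x' y' := by
  unfold Th
  congr 1
  apply List.map_congr_left
  intro i hi
  rw [List.mem_range] at hi
  rw [hx i hi, hy i hi]

theorem cp_map {H : Type} [Group H] (φ : G →* H) (n : ℕ) (a b : ℕ → G) :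
    φ (cp n a b) = cp n (fun i => φ (a i)) (fun i => φ (b i)) := by
  induction n with
  | zero => simp
  | succ n ih => rw [cp_succ, cp_succ, map_mul, ih, map_commutatorElement]

theorem Th_map {H : Type} [Group H] (φ : G →* H) (n : ℕ) (a b x y : ℕ → G) :
    φ (Th n a b x y) = Th n (fun i => φ (a i)) (fun i => φ (b i)) (fun i => φ (x i))
      (fun i => φ (y i)) := by
  induction n with
  | zero => simp
  | succ n ih =>
    rw [Th_succ, Th_succ, map_mul, ih, map_mul, map_mul, map_inv, cp_map]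
    congr 3
    simp only [th, map_mul, map_inv, map_commutatorElement]

theorem th_mem {M : Subgroup G} (hM : M.Normal) {a b x y : G} (hx : x ∈ M) (hy : y ∈ M) :
    th a b x y ∈ M := by
  unfold th
  refine M.mul_mem (M.mul_mem (M.mul_mem hx (hM.conj_mem _ hy _))
    (hM.conj_mem _ (M.inv_mem hx) _)) (hM.conj_mem _ (M.inv_mem hy) _)

theorem Th_mem {M : Subgroup G} (hM : M.Normal) {n : ℕ} {a b x y : ℕ → G}
    (hx : ∀ i < n, x i ∈ M) (hy : ∀ i < n, y i ∈ M) : Th n a b x y ∈ M := by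
  induction n with
  | zero => exact M.one_mem
  | succ n ih =>
    rw [Th_succ]
    exact M.mul_mem (ih (fun i hi => hx i (by omega)) (fun i hi => hy i (by omega)))
      (hM.conj_mem _ (th_mem hM (hx n (by omega)) (hy n (by omega))) _)

/-- the entries of the tuple -/
def ent (n : ℕ) (a b : ℕ → G) : Set G := {g | ∃ i < n, g = a i ∨ g = b i}

/-- a finite family as a sequence -/
def sq {X : Type} (n : ℕ) (e : X) (m : Fin n → X) : ℕ → X :=
  fun i => if h : i < n then m ⟨i, h⟩ else e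

/-- `Th` on finite tuples of elements of `M` -/
def TT (n : ℕ) (a b : ℕ → G) (M : Subgroup G) (m : (Fin n → M) × (Fin n → M)) : G :=
  Th n a b (sq n 1 fun i => ((m.1 i : M) : G)) (sq n 1 fun i => ((m.2 i : M) : G))

theorem sq_lt {X : Type} {n : ℕ} (e : X) (m : Fin n → X) {i : ℕ} (h : i < n) :
    sq n e m i = m ⟨i, h⟩ := dif_pos h

theorem sq_mem {n : ℕ} {M : Subgroup G} (m : Fin n → M) (i : ℕ) :
    sq n (1 : G) (fun j => ((m j : M) : G)) i ∈ M := by
  unfold sq
  split_ifs with h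
  · exact (m ⟨i, h⟩).2
  · exact M.one_mem

omit [Group G] in
theorem mem_ent_left {n : ℕ} {a b : ℕ → G} {i : ℕ} (h : i < n) : a i ∈ ent n a b :=
  ⟨i, h, Or.inl rfl⟩

omit [Group G] in
theorem mem_ent_right {n : ℕ} {a b : ℕ → G} {i : ℕ} (h : i < n) : b i ∈ ent n a b :=
  ⟨i, h, Or.inr rfl⟩

omit [Group G] in
theorem ent_congr {n : ℕ} {a b a' b' : ℕ → G} (ha : ∀ i < n, a i = a' i)
    (hb : ∀ i < n, b i = b' i) : ent n a b = ent n a' b' := by
  ext g
  constructor
  · rintro ⟨i, hi, h | h⟩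
    · exact ⟨i, hi, Or.inl (by rw [h, ha i hi])⟩
    · exact ⟨i, hi, Or.inr (by rw [h, hb i hi])⟩
  · rintro ⟨i, hi, h | h⟩
    · exact ⟨i, hi, Or.inl (by rw [h, ha i hi])⟩
    · exact ⟨i, hi, Or.inr (by rw [h, hb i hi])⟩

theorem ent_map {H : Type} [Group H] (φ : G →* H) (n : ℕ) (a b : ℕ → G) :
    φ '' ent n a b = ent n (fun i => φ (a i)) (fun i => φ (b i)) := by
  ext g
  constructor
  · rintro ⟨x, ⟨i, hi, h | h⟩, rfl⟩
    · exact ⟨i, hi, Or.inl (by rw [h])⟩
    · exact ⟨i, hi, Or.inr (by rw [h])⟩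
  · rintro ⟨i, hi, h | h⟩
    · exact ⟨a i, mem_ent_left hi, h.symm⟩
    · exact ⟨b i, mem_ent_right hi, h.symm⟩

end cp

/-- the structure used in the induction step: `M / Z` is a non-central chief factor -/
structure CF {G : Type} [Group G] (M Z : Subgroup G) : Prop where
  nM : M.Normal
  nZ : Z.Normal
  lt : Z < M
  top : ⁅M, (⊤ : Subgroup G)⁆ = M
  cM : ⁅M, M⁆ ≤ Z
  min : ∀ L : Subgroup G, L.Normal → L ≤ M → L ≠ M → L ≤ Z
  zM : ∀ z ∈ Z, ∀ m ∈ M, z * m = m * z

end Pool.Agent.H11.EL
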