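import Mathlib

/-!
# MP_0b603e_al: definitions used in the final statements
-/

set_option autoImplicit false

namespace Pool.Agent.H11.EL

/-- every metabelian group satisfying the law `w` is abelian -/
def MetabelianForcing {r : ℕ} (w : FreeGroup (Fin r)) : Prop :=
  ∀ (H : Type) [Group H], derivedSeries H 2 = ⊥ →
    (∀ f : Fin r → H, FreeGroup.lift f w = 1) → ∀ x y : H, x * y = y * x

/-- `Complexity ρ k G`: the group `G` has complexity at most `k` with respect to `ρ`.
Complexity `0`: nilpotent groups, finite groups of order at most `ρ`, and finite soluble groups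
whose order has at most `ρ` prime divisors.
Complexity `k + 1`: groups of complexity `k`; extensions of a group of complexity `k` by a group
of complexity `k`; products `A B` of two subgroups of complexity `k`; Cartesian products of groups
of complexity `k`; homomorphic images of groups of complexity `k`; groups any two elements of
which lie in a subgroup of complexity `k`. -/
def Complexity (ρ : ℕ) : ℕ → (G : Type) → [Group G] → Prop
  | 0, G, _ => Group.IsNilpotent G ∨ (Finite G ∧ Nat.card G ≤ ρ) ∨
      (Finite G ∧ Group.IsSolvable G ∧ (Nat.card G).primeFactors.card ≤ ρ)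
  | k + 1, G, _ => Complexity ρ k G ∨
      (∃ (N : Subgroup G) (_ : N.Normal), Complexity ρ k N ∧ Complexity ρ k (G ⧸ N)) ∨
      (∃ A B : Subgroup G, (∀ g : G, ∃ a ∈ A, ∃ b ∈ B, g = a * b) ∧
        Complexity ρ k A ∧ Complexity ρ k B) ∨
      (∃ (I : Type) (H : I → Type) (_ : ∀ i, Group (H i)), (∀ i, Complexity ρ k (H i)) ∧
        Nonempty (G ≃* (∀ i, H i))) ∨
      (∃ (H : Type) (_ : Group H), Complexity ρ k H ∧ ∃ φ : H →* G, Function.Surjective φ) ∨
      (∀ x y : G, ∃ A : Subgroup G, x ∈ A ∧ y ∈ A ∧ Complexity ρ k A)

end Pool.Agent.H11.EL
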