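import Pool.Agent.H11.EL.Targets2
import Pool.Agent.H11.EL.Stmt

/-!
# MP_0b603e_al: from the modules to the final statements
-/

set_option autoImplicit false

open scoped commutatorElement

namespace Pool.Agent.H11.EL

theorem Cx_mono {ρ : ℕ} : ∀ {k l : ℕ}, k ≤ l → ∀ {G : Type} [Group G], Cx ρ k G → Cx ρ l G := by
  intro k l hkl
  induction hkl with
  | refl => intro G _ h; exact h
  | step _ ih => intro G _ h; exact Or.inl (ih h)

/-- the leaves -/
theorem Cx_of_leaf (hCP : T_CP) {ρ : ℕ} {G : Type} [Group G] (h : Complexity ρ 0 G) :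
    Cx ρ ρ G := by
  rcases h with h | h | ⟨hf, hs, hc⟩
  · exact Cx_mono (Nat.zero_le _) (Or.inl h : Cx ρ 0 G)
  · exact Cx_mono (Nat.zero_le _) (Or.inr h : Cx ρ 0 G)
  · have h := hCP ρ ρ 0 G hs (Nat.card G).primeFactors
      (fun p hp => Nat.prime_of_mem_primeFactors hp) hc (by
        intro K hK
        refine Or.inl ?_
        have h1 : Nat.card K = 1 := by
          by_contra hne
          obtain ⟨p, hp, hpd⟩ := Nat.exists_prime_and_dvd hne
          have hpG : p ∣ Nat.card G := hpd.trans (Subgroup.card_subgroup_dvd_card K)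
          have := hK p (Nat.mem_primeFactors.2 ⟨hp, hpG, Nat.card_pos.ne'⟩)
          exact hp.one_lt.ne' (this.symm.eq_one_of_dvd hpd)
        have : Subsingleton K := (Nat.card_eq_one_iff_unique.1 h1).1
        infer_instance)
    rwa [zero_add] at h

private theorem fin_lift_map {r : ℕ} (w : FreeGroup (Fin r)) {G H : Type} [Group G] [Group H]
    (φ : G →* H) (f : Fin r → G) :
    φ (FreeGroup.lift f w) = FreeGroup.lift (fun i => φ (f i)) w := by
  have : φ.comp (FreeGroup.lift f) = FreeGroup.lift (fun i => φ (f i)) := by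
    ext i; simp
  rw [← this]; rfl

/-- Cartesian products -/
theorem PW_pi (hNF : T_NF) {r : ℕ} (w : FreeGroup (Fin r)) (m : ℕ) {I : Type} (G : I → Type)
    [∀ i, Group (G i)] (g : ∀ i, G i) (h : ∀ i, PW w m (g i)) :
    PW w (m * 2) (g : ∀ i, G i) := by
  choose f f' hf using fun M => hNF r w m (G M) (g M) (h M)
  have key : g = (List.ofFn fun i : Fin m => FreeGroup.lift (fun j M => f M i j) w *
      (FreeGroup.lift (fun j M => f' M i j) w)⁻¹).prod := by
    funext M
    have h1 := map_list_prod (Pi.evalMonoidHom G M) (List.ofFn fun i : Fin m =>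
      FreeGroup.lift (fun j M => f M i j) w * (FreeGroup.lift (fun j M => f' M i j) w)⁻¹)
    have h2 : (List.ofFn fun i : Fin m => FreeGroup.lift (fun j M => f M i j) w *
      (FreeGroup.lift (fun j M => f' M i j) w)⁻¹).prod M = Pi.evalMonoidHom G M
        (List.ofFn fun i : Fin m => FreeGroup.lift (fun j M => f M i j) w *
          (FreeGroup.lift (fun j M => f' M i j) w)⁻¹).prod := rfl
    rw [h2, h1, List.map_ofFn, hf M]
    congr 2
    funext i
    rw [Function.comp_apply, map_mul, map_inv, fin_lift_map, fin_lift_map]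
    rfl
  have h9 := PW.list (w := w) (k := 2) (List.ofFn fun i : Fin m =>
      FreeGroup.lift (fun j M => f M i j) w * (FreeGroup.lift (fun j M => f' M i j) w)⁻¹)
      (by
        intro z hz
        rw [List.mem_ofFn] at hz
        obtain ⟨i, rfl⟩ := hz
        exact (PW.val _).mul (PW.val _).inv)
  rw [← key, List.length_ofFn] at h9
  exact h9

private theorem fin_pw_sub {r : ℕ} {w : FreeGroup (Fin r)} {M : ℕ} {G : Type} [Group G]
    (N : Subgroup G) (h : ∀ x y : N, PW w M ⁅x, y⁆) :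
    ∀ x ∈ N, ∀ y ∈ N, PW w M ⁅x, y⁆ := by
  intro x hx y hy
  have h1 := (h ⟨x, hx⟩ ⟨y, hy⟩).map N.subtype
  rw [map_commutatorElement] at h1
  exact h1

/-- commutators in groups of bounded complexity -/
theorem comm_of_Complexity (hCM : T_CM) (hCP : T_CP) (hNF : T_NF) (hXT : T_XT) (hMG : T_MG) :
    ∀ (r : ℕ) (w : FreeGroup (Fin r)), MA w → ∀ ρ k : ℕ, ∃ M : ℕ,
      ∀ (G : Type) [Group G], Complexity ρ k G → ∀ x y : G, PW w M ⁅x, y⁆ := by
  intro r w hw ρ k
  induction k with
  | zero =>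
    obtain ⟨M, hM⟩ := hCM r w hw ρ ρ
    exact ⟨M, fun G _ hC x y => hM G (Cx_of_leaf hCP hC) x y⟩
  | succ k ih =>
    obtain ⟨M, hM⟩ := ih
    obtain ⟨M1, h1⟩ := hXT r w hw M M
    obtain ⟨M2, h2⟩ := hMG r w hw M M
    refine ⟨max (M * 2) (max M1 M2), ?_⟩
    intro G _ hC x y
    have hM' : M ≤ max (M * 2) (max M1 M2) := le_trans (by omega) (le_max_left _ _)
    rcases hC with hC | ⟨N, hN, c1, c2⟩ | ⟨A, B, hAB, cA, cB⟩ | ⟨I, H, inst, cH, ⟨e⟩⟩ |
      ⟨H, inst, cH, φ, hφ⟩ | hC
    · exact (hM G hC x y).mono hM'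
    · haveI := hN
      exact (h1 G N (fin_pw_sub N (fun a b => hM N c1 a b)) (fun a b => hM (G ⧸ N) c2 a b) x y).mono
        (le_max_of_le_right (le_max_left _ _))
    · exact (h2 G A B hAB (fin_pw_sub A (fun a b => hM A cA a b))
        (fin_pw_sub B (fun a b => hM B cB a b)) x y).mono
        (le_max_of_le_right (le_max_right _ _))
    · have h3 := PW_pi hNF w M H ⁅e x, e y⁆ fun i => hM (H i) (cH i) (e x i) (e y i)
      have h4 := h3.map e.symm.toMonoidHom
      rw [map_commutatorElement] at h4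
      have e1 : e.symm.toMonoidHom (e x) = x := e.symm_apply_apply x
      have e2 : e.symm.toMonoidHom (e y) = y := e.symm_apply_apply y
      rw [e1, e2] at h4
      exact h4.mono (le_max_left _ _)
    · obtain ⟨a, rfl⟩ := hφ x
      obtain ⟨b, rfl⟩ := hφ y
      have h3 := (hM H cH a b).map φ
      rw [map_commutatorElement] at h3
      exact h3.mono hM'
    · obtain ⟨A, hx, hy, hA⟩ := hC x y
      exact (fin_pw_sub A (fun a b => hM A hA a b) x hx y hy).mono hM'

private theorem fin_PW_cp {r : ℕ} {w : FreeGroup (Fin r)} {G : Type} [Group G] {M : ℕ}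
    (h : ∀ x y : G, PW w M ⁅x, y⁆) (a b : ℕ → G) (n : ℕ) : PW w (n * M) (cp n a b) := by
  induction n with
  | zero => rw [cp_zero]; exact PW.one _
  | succ n ih =>
    rw [cp_succ, Nat.succ_mul]
    exact ih.mul (h _ _)

private theorem fin_family {X : Type} (e : X) (s : Finset X) (d : ℕ) (hd : s.card ≤ d) :
    ∃ f : Fin d → X, (s : Set X) ⊆ Set.range f := by
  classical
  refine ⟨fun i => s.toList.getD i e, ?_⟩
  intro x hx
  have hx1 : x ∈ s.toList := by simpa using hx
  obtain ⟨i, hi, hxi⟩ := List.mem_iff_getElem.1 hx1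
  have hi1 : i < s.card := by simpa using hi
  refine ⟨⟨i, by omega⟩, ?_⟩
  change s.toList.getD i e = x
  rw [List.getD_eq_getElem _ _ hi, hxi]

/-- the width in finite soluble-by-bounded groups of bounded complexity -/
theorem width_of_Complexity (hCM : T_CM) (hCP : T_CP) (hNF : T_NF) (hXT : T_XT) (hMG : T_MG)
    (hVC : T_VC) (hAB : T_AB) :
    ∀ (r : ℕ) (w : FreeGroup (Fin r)), MA w → ∀ ρ k d : ℕ, ∃ K : ℕ,
      ∀ (G : Type) [Group G] [Finite G], Complexity ρ k G →
        (∃ S : Subgroup G, S.Normal ∧ Group.IsSolvable S ∧ S.index ≤ ρ) →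
        (∃ s : Finset G, s.card ≤ d ∧ Subgroup.closure (s : Set G) = ⊤) →
        ∀ g ∈ Subgroup.closure (Set.range (fun f : Fin r → G => FreeGroup.lift f w)),
          PW w K g := by
  intro r w hw ρ k d
  obtain ⟨M, hM⟩ := comm_of_Complexity hCM hCP hNF hXT hMG r w hw ρ k
  obtain ⟨n, hn⟩ := hVC d ρ
  refine ⟨1 + n * M, ?_⟩
  intro G _ _ hC hS hs g hg
  obtain ⟨S, hSn, hSs, hSi⟩ := hS
  obtain ⟨s, hsd, hs1⟩ := hs
  obtain ⟨f, hf⟩ := hAB r w G g hg
  obtain ⟨t, ht⟩ := fin_family (1 : G) s d hsd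
  have ht1 : Subgroup.closure (Set.range t) = ⊤ := by
    rw [eq_top_iff, ← hs1]
    exact Subgroup.closure_mono ht
  obtain ⟨a, b, hab⟩ := hn G S hSn hSs hSi t ht1 _ hf
  have h1 := fin_PW_cp (hM G hC) a b n
  rw [hab] at h1
  have h2 := (PW.val (w := w) f).mul h1
  rwa [mul_inv_cancel_left] at h2

end Pool.Agent.H11.EL
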