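import Pool.Agent.H91.EL.Targets

/-!
# End lemma (MP_ee74d2_an): row NUM, total numbers
-/

set_option autoImplicit false

namespace Pool.Agent.H11.EL

open Pool.Agent.H83.G Pool.Agent.H91.EL

theorem double_count {ι : Type} (X : Finset (Z 2)) (P : Finset ι) (I : Z 2 → ι → Prop) :
    ∑ z ∈ X, (PZ P I z).card = ∑ p ∈ P, (XP X I p).card := by
  classical
  unfold PZ XP
  simp_rw [Finset.card_filter]
  exact Finset.sum_comm

theorem pf_NUM (hPL1 : T_PL1) : T_NUM := by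
  classical
  obtain ⟨C₀, hC₀, h⟩ := hPL1
  refine ⟨C₀ + 3, by linarith, ?_⟩
  intro ι ρ D K X P η I hc
  have hD := hc.one_le_D
  have hK : 1 ≤ K := hD.trans hc.D_le_K
  have hρ : 1 ≤ ρ := hK.trans hc.K_le
  have hρ0 : 0 < ρ := by linarith
  have hD0 : 0 < D := by linarith
  have hD3 : 0 < D ^ 3 := by positivity
  have hρ4 : 0 < ρ ^ 4 := by positivity
  have hC : ∀ p ∈ P, ((XP X I p).card : ℝ) ≤ C₀ * D ^ 3 * ρ ^ 4 := by
    intro p hp
    have hsub : ∀ z ∈ XP X I p, z ∈ X ∧ I z p := by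
      intro z hz
      unfold XP at hz
      exact Finset.mem_filter.1 hz
    have h1 := h ρ D (ρ ^ 2) 0 (η p) (XP X I p) hρ hD (one_le_pow₀ hρ) (hc.eta p hp)
      (fun z hz z' hz' hne => hc.sep z (hsub z hz).1 z' (hsub z' hz').1 hne)
      (fun z hz z' hz' => hc.h0 p hp z (hsub z hz).1 z' (hsub z' hz').1 (hsub z hz).2
        (hsub z' hz').2)
      (fun z hz => by
        rw [sub_zero]
        exact (norm_w_le z).trans (hc.ball z (hsub z hz).1))
    refine h1.trans (le_of_eq ?_)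
    ring
  refine ⟨?_, ?_, ?_⟩
  · have h1 : (X.card : ℝ) * ρ ≤ D * ∑ z ∈ X, ((PZ P I z).card : ℝ) := by
      rw [Finset.mul_sum, ← nsmul_eq_mul, ← Finset.sum_const]
      exact Finset.sum_le_sum fun z hz => hc.h2 z hz
    have h2 : ∑ z ∈ X, ((PZ P I z).card : ℝ) = ∑ p ∈ P, ((XP X I p).card : ℝ) := by
      have := double_count X P I
      exact_mod_cast this
    have h3 : ∑ p ∈ P, ((XP X I p).card : ℝ) ≤ P.card * (C₀ * D ^ 3 * ρ ^ 4) := by
      rw [← nsmul_eq_mul, ← Finset.sum_const]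
      exact Finset.sum_le_sum fun p hp => hC p hp
    have h4 : (P.card : ℝ) * (C₀ * D ^ 3 * ρ ^ 4) ≤ (D * ρ ^ 4) * (C₀ * D ^ 3 * ρ ^ 4) :=
      mul_le_mul_of_nonneg_right hc.h6 (by positivity)
    have h5 : (X.card : ℝ) * ρ ≤ (C₀ * D ^ 5 * ρ ^ 7) * ρ := by
      calc (X.card : ℝ) * ρ ≤ D * ∑ z ∈ X, ((PZ P I z).card : ℝ) := h1
        _ ≤ D * ((D * ρ ^ 4) * (C₀ * D ^ 3 * ρ ^ 4)) := by
            rw [h2]
            exact mul_le_mul_of_nonneg_left (h3.trans h4) hD0.le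
        _ = (C₀ * D ^ 5 * ρ ^ 7) * ρ := by ring
    have h6 := le_of_mul_le_mul_right h5 hρ0
    refine h6.trans ?_
    have h7 : (0 : ℝ) ≤ D ^ 5 * ρ ^ 7 := by positivity
    nlinarith
  · intro z hz
    have h1 := hc.h4 z hz 0 3 (by
      have : K⁻¹ ≤ 1 := inv_le_one_of_one_le₀ hK
      linarith)
    have h2 : (PZ P I z).card ≤ (PC P I η z 0 3).card := by
      apply Finset.card_le_card
      intro p hp
      unfold PZ at hp
      unfold PC
      rw [Finset.mem_filter] at hp ⊢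
      refine ⟨hp.1, hp.2, ?_⟩
      rw [sub_zero]
      exact hc.eta p hp.1
    have h3 : ((PZ P I z).card : ℝ) ≤ (PC P I η z 0 3).card := by exact_mod_cast h2
    have h4 : (0 : ℝ) ≤ D * ρ := by positivity
    have h5 : 0 ≤ C₀ * (D * ρ) := by positivity
    linarith
  · intro p hp
    refine (hC p hp).trans ?_
    have h1 : (0 : ℝ) ≤ D ^ 3 * ρ ^ 4 := by positivity
    linarith

end Pool.Agent.H11.EL
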