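import Pool.Agent.H11.EL.Defs

/-!
# MP_0b603e_al (uniform ellipticity of words): targets of the modules
-/

set_option autoImplicit false

open scoped commutatorElement

namespace Pool.Agent.H11.EL

/-! ## Part A: words and factorizations -/

/-- a word with property `MA` gives a word `σ ⁅x, y⁆` with `σ` in the second derived group -/
def T_EX : Prop := ∀ (r : ℕ) (w : FreeGroup (Fin r)), MA w →
  ∃ L : ℕ, ∃ σ ∈ derivedSeries (FreeGroup (Fin 2)) 2, ∀ (G : Type) [Group G] (a b : G),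
    PW w L (FreeGroup.lift ![a, b] σ * ⁅a, b⁆)

/-- if `a`, `b` generate `H` and the term `c + 2` of the lower central series is trivial then every
element of the term `c + 1` is `⁅a, u⁆ * ⁅b, v⁆` with `u`, `v` in the term `c` -/
def T_NJ : Prop := ∀ (H : Type) [Group H] (a b : H), Subgroup.closure ({a, b} : Set H) = ⊤ →
  ∀ c : ℕ, (⊤ : Subgroup H).lowerCentralSeries (c + 2) = ⊥ →
    ∀ z ∈ (⊤ : Subgroup H).lowerCentralSeries (c + 1),
      ∃ u ∈ (⊤ : Subgroup H).lowerCentralSeries c, ∃ v ∈ (⊤ : Subgroup H).lowerCentralSeries c,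
        z = ⁅a, u⁆ * ⁅b, v⁆

/-- if the term `c + 2` of the lower central series is trivial (`c ≥ 1`) then a word in the second
derived group does not change if the second argument is multiplied by an element of the
term `c` -/
def T_NK : Prop := ∀ σ ∈ derivedSeries (FreeGroup (Fin 2)) 2, ∀ (H : Type) [Group H] (c : ℕ),
  (⊤ : Subgroup H).lowerCentralSeries (c + 2) = ⊥ →
    ∀ a h : H, ∀ u ∈ (⊤ : Subgroup H).lowerCentralSeries c,
      FreeGroup.lift ![a, h * u] σ = FreeGroup.lift ![a, h] σ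

/-- commutators in nilpotent groups -/
def T_NI : Prop := ∀ σ ∈ derivedSeries (FreeGroup (Fin 2)) 2, ∀ (H : Type) [Group H],
  Group.IsNilpotent H → ∀ a b : H, ∃ h k : H,
    ⁅a, b⁆ = (FreeGroup.lift ![a, h] σ * ⁅a, h⁆) * (FreeGroup.lift ![b, k] σ * ⁅b, k⁆)

/-- Itô's theorem: a product of two abelian subgroups is metabelian -/
def T_IT : Prop := ∀ (G : Type) [Group G] (A B : Subgroup G),
  (∀ x ∈ A, ∀ y ∈ A, x * y = y * x) → (∀ x ∈ B, ∀ y ∈ B, x * y = y * x) →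
    (∀ g : G, ∃ a ∈ A, ∃ b ∈ B, g = a * b) → derivedSeries G 2 = ⊥

/-- normal form of a product of values -/
def T_NF : Prop := ∀ (r : ℕ) (w : FreeGroup (Fin r)) (m : ℕ) (G : Type) [Group G] (g : G),
  PW w m g → ∃ f f' : Fin m → Fin r → G,
    g = (List.ofFn fun i => FreeGroup.lift (f i) w * (FreeGroup.lift (f' i) w)⁻¹).prod

/-- merging two factors -/
def T_MG : Prop := ∀ (r : ℕ) (w : FreeGroup (Fin r)), MA w → ∀ mA mB : ℕ, ∃ M : ℕ,
  ∀ (G : Type) [Group G] (A B : Subgroup G), (∀ g : G, ∃ a ∈ A, ∃ b ∈ B, g = a * b) →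
    (∀ x ∈ A, ∀ y ∈ A, PW w mA ⁅x, y⁆) → (∀ x ∈ B, ∀ y ∈ B, PW w mB ⁅x, y⁆) →
      ∀ x y : G, PW w M ⁅x, y⁆

/-- Sylow subgroup and Hall complement -/
def T_HA : Prop := ∀ (G : Type) [Group G] [Finite G], Group.IsSolvable G → ∀ p : ℕ, p.Prime →
  ∃ P K : Subgroup G, IsPGroup p P ∧ (Nat.card K).Coprime p ∧
    ∀ g : G, ∃ a ∈ P, ∃ b ∈ K, g = a * b

/-- groups which are nilpotent away from boundedly many primes -/
def T_PR : Prop := ∀ (r : ℕ) (w : FreeGroup (Fin r)), MA w → ∀ ρ : ℕ, ∃ M : ℕ,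
  ∀ (G : Type) [Group G] [Finite G], Group.IsSolvable G → ∀ π : Finset ℕ, π.card ≤ ρ →
    (∀ p ∈ π, p.Prime) →
    (∀ K : Subgroup G, (∀ p ∈ π, (Nat.card K).Coprime p) → Group.IsNilpotent K) →
      ∀ x y : G, PW w M ⁅x, y⁆

/-- nilpotent modulo the Frattini subgroup -/
def T_FT : Prop := ∀ (C : Type) [Group C] [Finite C] (K : Subgroup C) [K.Normal],
  K ≤ frattini C → Group.IsNilpotent (C ⧸ K) → Group.IsNilpotent C

/-- minimal supplements -/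
def T_MS : Prop := ∀ (G : Type) [Group G] [Finite G] (N : Subgroup G), N.Normal →
  ∃ C : Subgroup G, (∀ g : G, ∃ a ∈ C, ∃ b ∈ N, g = a * b) ∧ N.subgroupOf C ≤ frattini C

/-- towers -/
def T_TW : Prop := ∀ (r : ℕ) (w : FreeGroup (Fin r)), MA w → ∀ ρ h : ℕ, ∃ M : ℕ,
  ∀ (G : Type) [Group G] [Finite G], Group.IsSolvable G → Tow ρ h G → ∀ x y : G, PW w M ⁅x, y⁆

/-! ## Part S: products of commutators in finite soluble groups -/

/-- structure of a finite soluble group which is not nilpotent -/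
def T_ST : Prop := ∀ (G : Type) [Group G] [Finite G], Group.IsSolvable G → ¬ Group.IsNilpotent G →
  ∃ M Z : Subgroup G, CF M Z

/-- `Z` consists of non-generators -/
def T_FR : Prop := ∀ (G : Type) [Group G] (M Z : Subgroup G), CF M Z → ∀ S : Set G,
  Subgroup.closure (S ∪ Z) = ⊤ → Subgroup.closure S = ⊤

/-- nilpotent groups -/
def T_NB : Prop := ∀ (G : Type) [Group G], Group.IsNilpotent G → ∀ (d : ℕ) (y : ℕ → G),
  Subgroup.closure {g | ∃ i < d, g = y i} = ⊤ → ∀ g ∈ commutator G, ∃ x : ℕ → G, cp d y x = g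

/-- `CF` passes to quotients modulo subgroups of `Z` -/
def T_CQ : Prop := ∀ (G : Type) [Group G] (M Z R : Subgroup G) [R.Normal], CF M Z → R ≤ Z →
  CF (M.map (QuotientGroup.mk' R)) (Z.map (QuotientGroup.mk' R))

/-- expansion of `Th` -/
def T_BL : Prop := ∀ (G : Type) [Group G] (M : Subgroup G), M.Normal →
  (∀ x ∈ M, ∀ y ∈ M, ∀ g : G, ⁅x, y⁆ * g = g * ⁅x, y⁆) → ∀ (n : ℕ) (a b x y x' y' : ℕ → G),
    (∀ i, x i ∈ M) → (∀ i, y i ∈ M) → (∀ i, x' i ∈ M) → (∀ i, y' i ∈ M) →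
      Th n a b (fun i => x i * x' i) (fun i => y i * y' i) =
        Th n a b x y * Th n a b x' y' * BB n a b x y x' y'

/-- `BB` takes values in the derived group of `M` -/
def T_BC : Prop := ∀ (G : Type) [Group G] (M : Subgroup G), M.Normal →
  ∀ (n : ℕ) (a b x y x' y' : ℕ → G),
    (∀ i, x i ∈ M) → (∀ i, y i ∈ M) → (∀ i, x' i ∈ M) → (∀ i, y' i ∈ M) →
      BB n a b x y x' y' ∈ ⁅M, M⁆

/-- `BB` is multiplicative in its first pair of arguments -/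
def T_BM : Prop := ∀ (G : Type) [Group G] (M : Subgroup G), M.Normal →
  (∀ x ∈ M, ∀ y ∈ M, ∀ g : G, ⁅x, y⁆ * g = g * ⁅x, y⁆) →
  ∀ (n : ℕ) (a b x y u v x' y' : ℕ → G),
    (∀ i, x i ∈ M) → (∀ i, y i ∈ M) → (∀ i, u i ∈ M) → (∀ i, v i ∈ M) →
    (∀ i, x' i ∈ M) → (∀ i, y' i ∈ M) →
      BB n a b (fun i => x i * u i) (fun i => y i * v i) x' y' =
        BB n a b x y x' y' * BB n a b u v x' y'

/-- non-degeneracy of one commutator -/
def T_NE : Prop := ∀ (G : Type) [Group G] (M Z D : Subgroup G), M.Normal → Z.Normal → Z ≤ M →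
  (∀ x ∈ M, ∀ y ∈ M, ∀ g : G, ⁅x, y⁆ * g = g * ⁅x, y⁆) → (∀ z ∈ Z, ∀ g : G, z * g = g * z) →
  (∀ m ∈ M, (∀ m' ∈ M, ⁅m, m'⁆ ∈ D) → m ∈ Z) →
  ∀ (a b x' y' : G), x' ∈ M → y' ∈ M →
    (∀ x ∈ M, ∀ y ∈ M, be a b x y x' y' ∈ D) → x' ∈ Z ∧ y' ∈ Z

/-- non-degeneracy -/
def T_ND : Prop := ∀ (G : Type) [Group G] (M Z D : Subgroup G), M.Normal → Z.Normal → Z ≤ M →
  (∀ x ∈ M, ∀ y ∈ M, ∀ g : G, ⁅x, y⁆ * g = g * ⁅x, y⁆) → (∀ z ∈ Z, ∀ g : G, z * g = g * z) →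
  (∀ m ∈ M, (∀ m' ∈ M, ⁅m, m'⁆ ∈ D) → m ∈ Z) →
  ∀ (n : ℕ) (a b x' y' : ℕ → G), (∀ i, x' i ∈ M) → (∀ i, y' i ∈ M) →
    (∀ x y : ℕ → G, (∀ i, x i ∈ M) → (∀ i, y i ∈ M) → BB n a b x y x' y' ∈ D) →
      ∀ i < n, x' i ∈ Z ∧ y' i ∈ Z

/-- the radical of a proper subgroup of the derived group of `M` -/
def T_RA : Prop := ∀ (G : Type) [Group G] (M Z D : Subgroup G), CF M Z →
  (∀ z ∈ Z, ∀ g : G, z * g = g * z) → D < ⁅M, M⁆ →
    ∀ m ∈ M, (∀ m' ∈ M, ⁅m, m'⁆ ∈ D) → m ∈ Z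

/-- second moments -/
def T_MO : Prop := ∀ (X Y : Type) [Group X] [Group Y] [Finite X] [Finite Y] (D : Subgroup Y)
  (W : Subgroup X) (T : X → Y) (B : X → X → Y), (∀ δ ∈ D, ∀ y : Y, δ * y = y * δ) →
  (∀ m u, T (m * u) = T m * T u * B m u) → (∀ m u, B m u ∈ D) →
  (∀ m m' u, B (m * m') u = B m u * B m' u) → (∀ y : Y, ∃ m, ∃ δ ∈ D, T m * δ = y) →
  (∀ u, u ∉ W → ∀ δ ∈ D, ∃ m, B m u = δ) →
    ∀ κ : Y, ((Nat.card X : ℝ) / Nat.card Y - Nat.card {m : X // T m = κ}) ^ 2 ≤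
      (Nat.card W : ℝ) * Nat.card X

/-- the number of tuples which do not generate -/
def T_BA : Prop := ∀ (G : Type) [Group G] [Finite G] (M Z : Subgroup G), CF M Z →
  ∀ (d : ℕ) (s : Fin d → G), Subgroup.closure (Set.range s) = ⊤ →
  ∀ (n : ℕ) (a b : ℕ → G), Subgroup.closure (ent n a b ∪ M) = ⊤ →
    Nat.card {m : (Fin n → M) × (Fin n → M) // Subgroup.closure
      (ent n (fun i => sq n (1 : G) (fun j => ((m.1 j : M) : G)) i * a i)
        (fun i => sq n (1 : G) (fun j => ((m.2 j : M) : G)) i * b i) ∪ Z) ≠ ⊤} ≤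
      Z.relIndex M ^ d * Nat.card Z ^ (2 * n)

/-- the order of `M` -/
def T_SZ : Prop := ∀ (G : Type) [Group G] [Finite G] (M Z : Subgroup G), CF M Z →
  (∀ z ∈ Z, ∀ g : G, z * g = g * z) → ∀ (d : ℕ) (s : Fin d → G),
    Subgroup.closure (Set.range s) = ⊤ → Nat.card M ≤ Z.relIndex M ^ (d + 1)

/-- abelian normal subgroups -/
def T_LN : Prop := ∀ (G : Type) [Group G] (A C : Subgroup G), A.Normal →
  (∀ x ∈ A, ∀ y ∈ A, x * y = y * x) → (∀ x ∈ A, ∀ c ∈ C, x * c = c * x) →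
  ∀ (n : ℕ) (a b : ℕ → G), Subgroup.closure (ent n a b ∪ C) = ⊤ →
    ∀ κ ∈ ⁅A, (⊤ : Subgroup G)⁆, ∃ x y : ℕ → G, (∀ i, x i ∈ A) ∧ (∀ i, y i ∈ A) ∧
      Th n a b x y = κ

/-- the same modulo the derived group of `M` -/
def T_LM : Prop := ∀ (G : Type) [Group G] (M : Subgroup G), M.Normal →
  ∀ (n : ℕ) (a b : ℕ → G), Subgroup.closure (ent n a b ∪ M) = ⊤ →
    ∀ κ ∈ ⁅M, (⊤ : Subgroup G)⁆, ∃ x y : ℕ → G, (∀ i, x i ∈ M) ∧ (∀ i, y i ∈ M) ∧
      ∃ δ ∈ ⁅M, M⁆, Th n a b x y * δ = κ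

/-- the counting lemma: `Z` central -/
def T_LL : Prop := ∀ (G : Type) [Group G] [Finite G] (M Z : Subgroup G), CF M Z →
  (∀ z ∈ Z, ∀ g : G, z * g = g * z) → ∀ (d : ℕ) (s : Fin d → G),
    Subgroup.closure (Set.range s) = ⊤ → ∀ (a b : ℕ → G),
    Subgroup.closure (ent (d + 2) a b ∪ M) = ⊤ → ∀ κ ∈ M, ∃ x y : ℕ → G, (∀ i, x i ∈ M) ∧
      (∀ i, y i ∈ M) ∧ Th (d + 2) a b x y = κ ∧
      Subgroup.closure (ent (d + 2) (fun i => x i * a i) (fun i => y i * b i) ∪ Z) = ⊤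

/-- lifting from `G / M` to `G` -/
def T_GS : Prop := ∀ (G : Type) [Group G] [Finite G] (M Z : Subgroup G), CF M Z →
  ∀ (d : ℕ) (s : Fin d → G), Subgroup.closure (Set.range s) = ⊤ → ∀ (a b : ℕ → G),
    Subgroup.closure (ent (d + 2) a b ∪ M) = ⊤ → ∀ κ ∈ M, ∃ x y : ℕ → G, (∀ i, x i ∈ M) ∧
      (∀ i, y i ∈ M) ∧ Th (d + 2) a b x y = κ ∧
      Subgroup.closure (ent (d + 2) (fun i => x i * a i) (fun i => y i * b i)) = ⊤

/-- the commutator width of finite soluble groups (Segal) -/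
def T_CW : Prop := ∀ (d : ℕ) (G : Type) [Group G] [Finite G], Group.IsSolvable G →
  ∀ s : Fin d → G, Subgroup.closure (Set.range s) = ⊤ → ∀ g ∈ commutator G,
    ∃ a b : ℕ → G, cp (d + 2) a b = g ∧ Subgroup.closure (ent (d + 2) a b) = ⊤

/-! ## The theorem -/

/-- modulo the derived group one value suffices -/
def T_AB : Prop := ∀ (r : ℕ) (w : FreeGroup (Fin r)) (G : Type) [Group G],
  ∀ g ∈ Subgroup.closure (Set.range (fun f : Fin r → G => FreeGroup.lift f w)),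
    ∃ f : Fin r → G, (FreeGroup.lift f w)⁻¹ * g ∈ commutator G

/-- the theorem -/
def T_FIN : Prop := ∀ (r : ℕ) (w : FreeGroup (Fin r)), MA w → ∀ ρ h d : ℕ, ∃ k : ℕ,
  ∀ (G : Type) [Group G] [Finite G], Group.IsSolvable G → Tow ρ h G →
    (∃ s : Finset G, s.card ≤ d ∧ Subgroup.closure (s : Set G) = ⊤) →
    ∀ g ∈ Subgroup.closure (Set.range (fun f : Fin r → G => FreeGroup.lift f w)), PW w k g

end Pool.Agent.H11.EL
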